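import Pool.Agent.helper1.CD.Spec
import Pool.Agent.helper7.CH.GEX

/-!
# Project CD, row GCQ: Galois theory, a count of the automorphisms `g` (variant of `CH.GEX`)
-/

set_option autoImplicit false

open NumberField IsDedekindDomain Complex Pool.Agent.CH Pool.Agent.GK

namespace Pool.Agent.CD

theorem GCQ : GCQ_stmt := by
  intro B m ε hM K L M _ _ _ _ _ _ _ _ _ _ _ _ z σ hB hz htop
  haveI : NeZero m := ⟨hM.1.ne'⟩
  haveI : IsGalois L M := IsGalois.tower_top_of_isGalois K L M
  let κ := hz.autToPow K
  let ι : (M ≃ₐ[L] M) →* (M ≃ₐ[K] M) := AlgEquiv.restrictScalarsHom K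
  have hκι : Function.Injective (κ.comp ι) := by
    rw [injective_iff_map_eq_one]
    intro t ht
    have h1 := hz.autToPow_spec K (ι t)
    have h2 : ((hz.autToPow K (ι t) : (ZMod m)ˣ) : ZMod m) = 1 := by
      rw [show hz.autToPow K (ι t) = 1 from ht]
      rfl
    have h3 : (ι t) z = z := by
      by_cases hm : m = 1
      · subst hm
        have : z = 1 := by simpa using hz.pow_eq_one
        rw [this, map_one]
      · haveI : Fact (1 < m) := ⟨by have := NeZero.ne m; omega⟩
        rw [h2, ZMod.val_one, pow_one] at h1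
        exact h1.symm
    have h4 : ι t = 1 := GEX_id z htop (ι t) (fun x => t.commutes x) h3
    ext y
    exact congrArg (fun f : M ≃ₐ[K] M => f y) h4
  let H : Subgroup (ZMod m)ˣ := (κ.comp ι).range
  have hHc : Nat.card H = Module.finrank L M := by
    rw [← IsGalois.card_aut_eq_finrank L M]
    exact (Nat.card_congr (MonoidHom.ofInjective hκι).toEquiv).symm
  have hphi : m.totient ≤ Module.finrank ℚ M := by
    have h1 := Polynomial.cyclotomic_eq_minpoly_rat hz hM.1
    have h2 := minpoly.natDegree_le (A := ℚ) z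
    rwa [← h1, Polynomial.natDegree_cyclotomic] at h2
  have hcard : H.index * Nat.card H = m.totient := by
    rw [Subgroup.index_mul_card, Nat.card_eq_fintype_card, ZMod.card_units_eq_totient]
  have hH0 : 0 < Nat.card H := Nat.card_pos
  have hidx : H.index ≤ B := by
    have h1 : H.index * Nat.card H ≤ Module.finrank ℚ L * Nat.card H := by
      rw [hcard, hHc, Module.finrank_mul_finrank]
      exact hphi
    exact (Nat.le_of_mul_le_mul_right h1 hH0).trans hB
  have hidx0 : H.index ≠ 0 := Subgroup.index_ne_zero_of_finite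
  have hn0 : 0 < orderOf σ := orderOf_pos σ
  have hnB : orderOf σ ≤ B := by
    refine le_trans ?_ hB
    have h1 : orderOf σ ≤ Module.finrank K L := by
      rw [← IsGalois.card_aut_eq_finrank K L]
      exact orderOf_le_card
    have h2 := Module.finrank_mul_finrank ℚ K L
    have h3 : 0 < Module.finrank ℚ K := Module.finrank_pos
    nlinarith
  have hct := hM.2 H hidx hidx0 (κ (σ.liftNormal M)) (orderOf σ) hn0 hnB
  rw [hHc] at hct
  refine hct.trans ?_
  -- the good elements
  have hgood : ∀ t : M ≃ₐ[L] M, orderOf σ ∣ orderOf (κ (σ.liftNormal M) * (κ.comp ι) t) →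
      (∀ x : L, (σ.liftNormal M * ι t) (algebraMap L M x) = algebraMap L M (σ x)) ∧
      ∀ k : ℕ, ((σ.liftNormal M * ι t) ^ k) z = z → (σ.liftNormal M * ι t) ^ k = 1 := by
    intro t hdvd
    have hg : ∀ x : L, (σ.liftNormal M * ι t) (algebraMap L M x) = algebraMap L M (σ x) := by
      intro x
      show (σ.liftNormal M) (t (algebraMap L M x)) = _
      rw [t.commutes, AlgEquiv.liftNormal_commutes]
    refine ⟨hg, ?_⟩
    intro k hk
    have h1 := GEX_one hz _ hk
    have h2 : κ (σ.liftNormal M * ι t) ^ k = 1 := by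
      rw [← map_pow]
      exact h1
    have h3 : orderOf σ ∣ k := by
      refine hdvd.trans ?_
      rw [orderOf_dvd_iff_pow_eq_one]
      rw [map_mul] at h2
      exact h2
    have h4 : σ ^ k = 1 := orderOf_dvd_iff_pow_eq_one.1 h3
    have h5 : ∀ (j : ℕ) (x : L), ((σ.liftNormal M * ι t) ^ j) (algebraMap L M x) =
        algebraMap L M ((σ ^ j) x) := by
      intro j
      induction j with
      | zero => intro x; simp
      | succ j ih =>
        intro x
        rw [pow_succ, pow_succ]
        show ((σ.liftNormal M * ι t) ^ j) ((σ.liftNormal M * ι t) (algebraMap L M x)) = _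
        rw [hg, ih]
        rfl
    exact GEX_id z htop _ (fun x => by rw [h5, h4]; rfl) hk
  have hch : ∀ h : {h : (ZMod m)ˣ // h ∈ H ∧ orderOf σ ∣ orderOf (κ (σ.liftNormal M) * h)},
      ∃ t : M ≃ₐ[L] M, (κ.comp ι) t = h.1 := fun h => h.2.1
  choose T hT using hch
  have hle : Nat.card {h : (ZMod m)ˣ // h ∈ H ∧ orderOf σ ∣ orderOf (κ (σ.liftNormal M) * h)} ≤
      Nat.card {g : M ≃ₐ[K] M // (∀ x : L, g (algebraMap L M x) = algebraMap L M (σ x)) ∧
        ∀ k : ℕ, (g ^ k) z = z → g ^ k = 1} := by
    refine Nat.card_le_card_of_injective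
      (fun h => ⟨σ.liftNormal M * ι (T h), hgood (T h) (by rw [hT h]; exact h.2.2)⟩) ?_
    intro h₁ h₂ he
    have h1 : σ.liftNormal M * ι (T h₁) = σ.liftNormal M * ι (T h₂) := congrArg Subtype.val he
    have h2 : ι (T h₁) = ι (T h₂) := mul_left_cancel h1
    apply Subtype.ext
    rw [← hT h₁, ← hT h₂]
    show κ (ι (T h₁)) = κ (ι (T h₂))
    rw [h2]
  exact_mod_cast hle

end Pool.Agent.CD
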